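import Pool.Agent.MWHQ.Stmts

/-!
# Squad MWHQ (MP_23468a_al), row DI2: the system h2 is distributive, all periods
-/

set_option autoImplicit false

namespace Pool.Agent.MWHQ.H64

open Pool.Agent.Helper14_MV Pool.Agent.Helper2_MV Pool.Agent.MVO Pool.Agent.MWL Pool.Agent.MWS
  Pool.Agent.MWH

/-- **DI2** -/
theorem di2 (tlm : MWHP.TlmnStmt) (swh : MWHP.SwhStmt) (ed2 : Ed2Stmt) : Di2Stmt := by
  intro n β hβ
  exact tlm n β hβ.toBaseH.toBasN (swh n β hβ.toBaseH) (ed2 n β hβ)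

end Pool.Agent.MWHQ.H64
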